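import Pool.Agent.N867.AS.Final

/-!
# Rank and order of vanishing for Jacobians of Artin–Schreier curves `y^p - y = F_1 ⋯ F_g`
over `k(t)`
-/

set_option autoImplicit false

namespace Pool.Agent.Results.MP_1d384c_nt.ArtinSchreierJac

open Polynomial

/-- `F ∈ k[t][x]` (outer variable `x`, inner variable `t`) is monic of degree `a` in `x`, all its
monomials `x^m t^n` satisfy `b m + a n ≤ a b`, and the monomial `t^b` has coefficient `-β`. -/
structure Weighted {k : Type} [Field k] (a b : ℕ) (β : k) (F : k[X][X]) : Prop where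
  monic : F.Monic
  deg : F.natDegree = a
  wt : ∀ m n, (F.coeff m).coeff n ≠ 0 → b * m + a * n ≤ a * b
  lead : (F.coeff 0).coeff b = - β

/-- The value `f(x, t)` at a point with coordinates in an algebraic closure of `k`. -/
noncomputable def value {k : Type} [Field k] (f : k[X][X]) (t x : AlgebraicClosure k) :
    AlgebraicClosure k :=
  f.eval₂ (eval₂RingHom (algebraMap k (AlgebraicClosure k)) t) x

/-- `t, x, y` lie in `F_Q = {z : z^Q = z}` and `y^p - y = f(x, t)`. -/
def IsPoint {k : Type} [Field k] (p : ℕ) (f : k[X][X]) (Q : ℕ) (t x y : AlgebraicClosure k) :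
    Prop :=
  t ^ Q = t ∧ x ^ Q = x ∧ y ^ Q = y ∧ y ^ p - y = value f t x

/-- The number of `(t, x, y)` with coordinates in `F_Q` such that `y^p - y = f(x, t)`. -/
noncomputable def points {k : Type} [Field k] (p : ℕ) (f : k[X][X]) (Q : ℕ) : ℕ :=
  Nat.card {v : AlgebraicClosure k × AlgebraicClosure k × AlgebraicClosure k //
    IsPoint p f Q v.1 v.2.1 v.2.2}

/-- The power series `∑_{m ≥ 1} (q^{2m} - N_m) T^m`, where `q = #k` and
`N_m = points p f (q^m)`. -/
noncomputable def traces {k : Type} [Field k] [Fintype k] (p : ℕ) (f : k[X][X]) :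
    PowerSeries ℚ :=
  PowerSeries.mk fun m => if m = 0 then 0 else
    ((Fintype.card k : ℚ) ^ (2 * m) - (points p f (Fintype.card k ^ m) : ℚ))

/-- `L(T) = exp (∑_{m ≥ 1} (q^{2m} - N_m) T^m / m)`: that is, `L(0) = 1` and
`T L' = L ∑_{m ≥ 1} (q^{2m} - N_m) T^m`. -/
def IsLFunction {k : Type} [Field k] [Fintype k] (p : ℕ) (f : k[X][X]) (L : ℚ[X]) : Prop :=
  L.coeff 0 = 1 ∧
    PowerSeries.X * PowerSeries.derivative ℚ (L : PowerSeries ℚ) =
      (L : PowerSeries ℚ) * traces p f

/-- `y^p - y - f` as a polynomial in `y` over `K[x]`, `K = k(t)`. -/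
noncomputable def curve {k : Type} [Field k] (p : ℕ) (f : k[X][X]) : (RatFunc k)[X][X] :=
  X ^ p - X - C (f.map (algebraMap k[X] (RatFunc k)))

/-- The affine coordinate ring `K[x, y]/(y^p - y - f)` of the curve `y^p - y = f` over
`K = k(t)`. -/
abbrev CoordRing {k : Type} [Field k] (p : ℕ) (f : k[X][X]) : Type := AdjoinRoot (curve p f)

/-- The rank of the ideal class group. -/
noncomputable def classRank (R : Type) [CommRing R] [IsDomain R] : Cardinal :=
  Module.rank ℤ (Additive (ClassGroup R))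

/-- Let `f = F_1 ⋯ F_g`. The class group of `K[x, y]/(y^p - y - f)`, which is the Mordell–Weil
group of the Jacobian, has rank at least `(p-1)(g-1)`, and the `L`-function of the Jacobian
vanishes at `T = 1/q` to order at most `(p-1)(g-1)`. -/
theorem result (p : ℕ) (hp : p.Prime) (k : Type) [Field k] [Fintype k] [CharP k p] (a b g : ℕ)
    (hab : a.Coprime b) (hga : g * a ∣ p - 1) (hgb : g * b ∣ p - 1) (β : Fin g → k) (c : k)
    (hc0 : c ≠ 0) (hc : ∏ i, (X - C (β i)) = X ^ g - C c) (F : Fin g → k[X][X])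
    (hF : ∀ i, Weighted a b (β i) (F i)) :
    ∃ _ : IsDomain (CoordRing p (∏ i, F i)),
      (((p - 1) * (g - 1) : ℕ) : Cardinal) ≤ classRank (CoordRing p (∏ i, F i)) ∧
      ∀ L : ℚ[X], IsLFunction p (∏ i, F i) L →
        L.rootMultiplicity (1 / (Fintype.card k : ℚ)) ≤ (p - 1) * (g - 1) := by
  obtain ⟨hdom, h1, h2⟩ := Pool.Agent.N867.AS.Final.main p hp k a b g hab hga hgb β c hc0 hc F
    (fun i => ⟨(hF i).monic, (hF i).deg, (hF i).wt, (hF i).lead⟩)
  exact ⟨hdom, h1, fun L hL => h2 L hL.1 hL.2⟩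

end Pool.Agent.Results.MP_1d384c_nt.ArtinSchreierJac
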